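import Pool.Agent.Helper5.LCU.Stmts

/-! Project LCU, row CB: 2x2 Cauchy-Binet with signs. -/

set_option autoImplicit false

open Finset

namespace Pool.Agent.Helper5.LCU

theorem st_CB : ST_CB := by
  intro N u v p q h1 h2
  have key : ∑ s ∈ range N, ∑ t ∈ range N, (u s * v t - u t * v s) * (p s * q t - p t * q s) =
      2 * ((∑ s ∈ range N, u s * p s) * (∑ s ∈ range N, v s * q s) -
        (∑ s ∈ range N, u s * q s) * (∑ s ∈ range N, v s * p s)) := by
    have e : ∀ s t : ℕ, (u s * v t - u t * v s) * (p s * q t - p t * q s) =
        (u s * p s) * (v t * q t) - (u s * q s) * (v t * p t) - (v s * p s) * (u t * q t) +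
          (v s * q s) * (u t * p t) := by
      intro s t
      ring
    simp only [e, Finset.sum_add_distrib, Finset.sum_sub_distrib, ← Finset.mul_sum,
      ← Finset.sum_mul]
    ring
  have pos : 0 ≤ ∑ s ∈ range N, ∑ t ∈ range N,
      (u s * v t - u t * v s) * (p s * q t - p t * q s) := by
    refine Finset.sum_nonneg fun s hs => Finset.sum_nonneg fun t ht => ?_
    rcases lt_trichotomy s t with h | h | h
    · exact mul_nonneg (h1 s t h (mem_range.1 ht)) (h2 s t h (mem_range.1 ht))
    · subst h
      simp
    · have h3 := mul_nonneg (h1 t s h (mem_range.1 hs)) (h2 t s h (mem_range.1 hs))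
      have e : (u s * v t - u t * v s) * (p s * q t - p t * q s) =
          (u t * v s - u s * v t) * (p t * q s - p s * q t) := by ring
      rw [e]
      exact h3
  linarith

end Pool.Agent.Helper5.LCU
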